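import Pool.Agent.helper28.LT.Defs

/-!
# LT project, module BQ: tuples with a bad prime `q`
-/

set_option autoImplicit false

namespace Pool.Agent.helper28.LT

open Finset NumberField Pool.Agent.helper3.FT Pool.Agent.helper47.RA

theorem BQ_cls {M P : ℕ} {r x : ℤ} (hx : x ∈ cls M P r) : |x| ≤ M ∧ (P : ℤ) ∣ x - r := by
  unfold cls at hx
  rw [mem_filter, mem_Icc] at hx
  exact ⟨abs_le.mpr hx.1, hx.2⟩

theorem BQ_PP {κ : ℕ} {p : ℕ × ℕ} (hp : p ∈ PP κ) :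
    4 * κ < p.1 ∧ p.1 ≤ 8 * κ ∧ 4 * κ < p.2 ∧ p.2 ≤ 8 * κ ∧ p.1.Prime ∧ p.2.Prime ∧
      p.1 ≠ p.2 := by
  unfold PP at hp
  rw [mem_filter, mem_product, mem_Ioc, mem_Ioc] at hp
  exact ⟨hp.1.1.1, hp.1.1.2, hp.1.2.1, hp.1.2.2, hp.2.1, hp.2.2.1, hp.2.2.2⟩

theorem BQ_PP_swap {κ : ℕ} {n k : ℕ} (hp : (n, k) ∈ PP κ) : (k, n) ∈ PP κ := by
  obtain ⟨h1, h2, h3, h4, h5, h6, h7⟩ := BQ_PP hp
  unfold PP
  rw [mem_filter, mem_product, mem_Ioc, mem_Ioc]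
  exact ⟨⟨⟨h3, h4⟩, ⟨h1, h2⟩⟩, h6, h5, Ne.symm h7⟩

/-- membership in a class after division by `q` -/
theorem BQ_cls_div {M P q : ℕ} (hq : 1 ≤ q) {r1 x : ℤ} (hr1 : (P : ℤ) ∣ q * r1 - 1)
    (hc : IsCoprime (P : ℤ) (q : ℤ)) (h1 : |(q : ℤ) * x| ≤ M) (h2 : (P : ℤ) ∣ (q : ℤ) * x - 1) :
    x ∈ cls (M / q) P r1 := by
  have hq' : (0 : ℤ) < q := by exact_mod_cast hq
  unfold cls
  rw [mem_filter, mem_Icc, ← abs_le]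
  constructor
  · rw [Int.natCast_div, Int.le_ediv_iff_mul_le hq']
    rw [abs_mul, abs_of_pos hq'] at h1
    linarith [mul_comm (|x|) (q : ℤ)]
  · have h3 : (P : ℤ) ∣ q * (x - r1) := by
      have := dvd_sub h2 hr1
      have e : (q : ℤ) * x - 1 - (q * r1 - 1) = q * (x - r1) := by ring
      rwa [e] at this
    exact hc.dvd_of_dvd_mul_left h3

theorem BQ_window {q W : ℕ} {a b : ℕ} (hq : 1 ≤ q) {x : ℤ} (h1 : ((a : ℕ) : ℤ) ≤ q * x)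
    (h2 : (q : ℤ) * x ≤ W) (hW : W = a + b) :
    x ∈ Icc (((a / q : ℕ)) : ℤ) (((a / q : ℕ) : ℤ) + ((b / q + 1 : ℕ) : ℤ)) := by
  have hq' : (0 : ℤ) < q := by exact_mod_cast hq
  have ha := Nat.div_mul_le_self a q
  have ha2 := Nat.lt_div_mul_add hq (a := a)
  have hb2 := Nat.lt_div_mul_add hq (a := b)
  rw [mem_Icc]
  constructor
  · have : ((a / q : ℕ) : ℤ) * q ≤ x * q := by
      have h3 : (((a / q : ℕ) : ℤ)) * q ≤ a := by exact_mod_cast ha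
      linarith [mul_comm (q : ℤ) x]
    exact le_of_mul_le_mul_right this hq'
  · have h3 : (a : ℤ) < ((a / q : ℕ) : ℤ) * q + q := by exact_mod_cast ha2
    have h4 : (b : ℤ) < ((b / q : ℕ) : ℤ) * q + q := by exact_mod_cast hb2
    have h5 : (W : ℤ) = a + b := by exact_mod_cast hW
    have h6 : x * q < (((a / q : ℕ) : ℤ) + ((b / q : ℕ) : ℤ) + 2) * q := by
      have e : x * q = q * x := mul_comm _ _
      rw [e]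
      linarith
    have h7 := lt_of_mul_lt_mul_right h6 hq'.le
    push_cast at h7 ⊢
    omega

/-- the elementary facts about a tuple -/
theorem BQ_facts {κ s P : ℕ} {n k : ℕ} {m g Z : ℤ}
    (ht : ((n, k), (m, g, Z)) ∈ TT κ s P) :
    (n, k) ∈ PP κ ∧ (|m| ≤ (κ ^ 2 * s : ℕ) ∧ (P : ℤ) ∣ m - 1) ∧
      (|g| ≤ (κ ^ 2 * s : ℕ) ∧ (P : ℤ) ∣ g - 1) ∧
      64 * (κ : ℤ) ^ 2 * s ^ 2 ≤ Z ∧ Z ≤ 128 * (κ : ℤ) ^ 2 * s ^ 2 ∧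
      (n : ℤ) ^ 3 ∣ Z * (k : ℤ) ^ 4 + m * g * (k : ℤ) ^ 2 - g ^ 2 * (n : ℤ) ^ 2 ∧
      (k : ℤ) ∣ m ^ 2 - Z * (n : ℤ) ^ 2 := by
  unfold TT at ht
  rw [mem_filter, mem_product, mem_product, mem_product] at ht
  obtain ⟨⟨h1, h2, h3, h4⟩, h5, h6⟩ := ht
  rw [mem_Icc] at h4
  exact ⟨h1, BQ_cls h2, BQ_cls h3, h4.1, h4.2, h5, h6⟩

theorem BQ_lam {κ s P : ℕ} {n k : ℕ} {m g Z : ℤ}
    (ht : ((n, k), (m, g, Z)) ∈ TT κ s P) :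
    lam ((n, k), (m, g, Z)) * (n : ℤ) ^ 2 = m * g + Z * (k : ℤ) ^ 2 ∧
      (n : ℤ) ∣ g ^ 2 - lam ((n, k), (m, g, Z)) * (k : ℤ) ^ 2 ∧
      (k : ℤ) ^ 3 ∣ lam ((n, k), (m, g, Z)) * (n : ℤ) ^ 4 - g * m * (n : ℤ) ^ 2 -
        m ^ 2 * (k : ℤ) ^ 2 ∧
      15 * (κ : ℤ) ^ 2 * s ^ 2 ≤ lam ((n, k), (m, g, Z)) ∧
      lam ((n, k), (m, g, Z)) ≤ 513 * (κ : ℤ) ^ 2 * s ^ 2 := by
  obtain ⟨hp, ⟨hm, -⟩, ⟨hg, -⟩, hZ1, hZ2, h1, h2⟩ := BQ_facts ht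
  obtain ⟨hn1, hn2, hk1, hk2, hn, hk, hnk⟩ := BQ_PP hp
  simp only at hn1 hn2 hk1 hk2 hn hk hnk
  have hcop : IsCoprime ((n : ℤ) ^ 2) ((k : ℤ) ^ 2) :=
    (Nat.isCoprime_iff_coprime.mpr ((Nat.coprime_primes hn hk).mpr hnk)).pow
  have hn0 : (n : ℤ) ≠ 0 := by exact_mod_cast hn.ne_zero
  have hn2' : (n : ℤ) ^ 2 ∣ m * g + Z * (k : ℤ) ^ 2 := by
    have h3 : (n : ℤ) ^ 2 ∣ (k : ℤ) ^ 2 * (m * g + Z * (k : ℤ) ^ 2) := by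
      have h4 : (n : ℤ) ^ 2 ∣ Z * (k : ℤ) ^ 4 + m * g * (k : ℤ) ^ 2 - g ^ 2 * (n : ℤ) ^ 2 :=
        (pow_dvd_pow _ (by norm_num)).trans h1
      have h5 := dvd_add h4 (Dvd.intro_left (g ^ 2) rfl : (n : ℤ) ^ 2 ∣ g ^ 2 * (n : ℤ) ^ 2)
      have e : Z * (k : ℤ) ^ 4 + m * g * (k : ℤ) ^ 2 - g ^ 2 * (n : ℤ) ^ 2 +
          g ^ 2 * (n : ℤ) ^ 2 = (k : ℤ) ^ 2 * (m * g + Z * (k : ℤ) ^ 2) := by ring
      rwa [e] at h5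
    exact hcop.dvd_of_dvd_mul_left h3
  have hL : lam ((n, k), (m, g, Z)) * (n : ℤ) ^ 2 = m * g + Z * (k : ℤ) ^ 2 := by
    unfold lam
    exact Int.ediv_mul_cancel hn2'
  set L := lam ((n, k), (m, g, Z)) with hLdef
  refine ⟨hL, ?_, ?_, ?_, ?_⟩
  · have h3 : (n : ℤ) ^ 2 * n ∣ (n : ℤ) ^ 2 * (g ^ 2 - L * (k : ℤ) ^ 2) := by
      have e : (n : ℤ) ^ 2 * (g ^ 2 - L * (k : ℤ) ^ 2) =
          -(Z * (k : ℤ) ^ 4 + m * g * (k : ℤ) ^ 2 - g ^ 2 * (n : ℤ) ^ 2) := by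
        have : (n : ℤ) ^ 2 * (g ^ 2 - L * (k : ℤ) ^ 2) =
            (n : ℤ) ^ 2 * g ^ 2 - (L * (n : ℤ) ^ 2) * (k : ℤ) ^ 2 := by ring
        rw [this, hL]
        ring
      rw [e, dvd_neg]
      have e2 : (n : ℤ) ^ 2 * n = (n : ℤ) ^ 3 := by ring
      rw [e2]
      exact h1
    exact (mul_dvd_mul_iff_left (pow_ne_zero 2 hn0)).mp h3
  · have e : L * (n : ℤ) ^ 4 - g * m * (n : ℤ) ^ 2 - m ^ 2 * (k : ℤ) ^ 2 =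
        (k : ℤ) ^ 2 * -(m ^ 2 - Z * (n : ℤ) ^ 2) := by
      have : L * (n : ℤ) ^ 4 - g * m * (n : ℤ) ^ 2 - m ^ 2 * (k : ℤ) ^ 2 =
          (L * (n : ℤ) ^ 2) * (n : ℤ) ^ 2 - g * m * (n : ℤ) ^ 2 - m ^ 2 * (k : ℤ) ^ 2 := by ring
      rw [this, hL]
      ring
    rw [e, pow_succ (k : ℤ) 2]
    exact mul_dvd_mul_left _ ((dvd_neg).mpr h2)
  · -- lower bound
    by_contra hlt
    rw [not_le] at hlt
    have hmg : |m * g| ≤ ((κ : ℤ) ^ 2 * s) * ((κ : ℤ) ^ 2 * s) := by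
      rw [abs_mul]
      push_cast at hm hg
      exact mul_le_mul hm hg (abs_nonneg _) (by positivity)
    have h3 := (abs_le.mp hmg).1
    have hkk : (16 : ℤ) * (κ : ℤ) ^ 2 ≤ (k : ℤ) ^ 2 := by
      have : (4 * (κ : ℤ)) ≤ k := by exact_mod_cast hk1.le
      nlinarith
    have hnn : (n : ℤ) ^ 2 ≤ 64 * (κ : ℤ) ^ 2 := by
      have : (n : ℤ) ≤ 8 * κ := by exact_mod_cast hn2
      have h0 : (0 : ℤ) ≤ n := by positivity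
      nlinarith
    have h4 : 64 * (κ : ℤ) ^ 2 * s ^ 2 * (16 * (κ : ℤ) ^ 2) ≤ Z * (k : ℤ) ^ 2 :=
      mul_le_mul hZ1 hkk (by positivity) (by
        have : (0 : ℤ) ≤ 64 * (κ : ℤ) ^ 2 * s ^ 2 := by positivity
        linarith)
    have hpos : 0 ≤ (n : ℤ) ^ 2 := by positivity
    have hX : (0 : ℤ) ≤ (κ : ℤ) ^ 2 * s ^ 2 := by positivity
    have h5 : L * (n : ℤ) ^ 2 ≤ 15 * (κ : ℤ) ^ 2 * s ^ 2 * (64 * (κ : ℤ) ^ 2) := by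
      refine (mul_le_mul_of_nonneg_right hlt.le hpos).trans ?_
      exact mul_le_mul_of_nonneg_left hnn (by positivity)
    rw [hL] at h5
    have hY : (0 : ℤ) ≤ (κ : ℤ) ^ 4 * s ^ 2 := by positivity
    have e1 : 64 * (κ : ℤ) ^ 2 * s ^ 2 * (16 * (κ : ℤ) ^ 2) = 1024 * ((κ : ℤ) ^ 4 * s ^ 2) := by
      ring
    have e2 : ((κ : ℤ) ^ 2 * s) * ((κ : ℤ) ^ 2 * s) = (κ : ℤ) ^ 4 * s ^ 2 := by ring
    have e3 : 15 * (κ : ℤ) ^ 2 * s ^ 2 * (64 * (κ : ℤ) ^ 2) = 960 * ((κ : ℤ) ^ 4 * s ^ 2) := by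
      ring
    rw [e1] at h4
    rw [e2] at h3
    rw [e3] at h5
    have hY0 : (κ : ℤ) ^ 4 * s ^ 2 = 0 := by linarith
    have hs0 : (κ : ℤ) ^ 2 * s ^ 2 = 0 ∨ (κ : ℤ) ^ 2 = 0 := by
      have : (κ : ℤ) ^ 2 * s ^ 2 * (κ : ℤ) ^ 2 = 0 := by rw [← hY0]; ring
      exact mul_eq_zero.mp this
    have hX0 : (κ : ℤ) ^ 2 * s ^ 2 = 0 := by
      rcases hs0 with h | h
      · exact h
      · rw [h, zero_mul]
    have hL0 : L < 0 := by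
      have e4 : 15 * (κ : ℤ) ^ 2 * s ^ 2 = 15 * ((κ : ℤ) ^ 2 * s ^ 2) := by ring
      rw [e4, hX0, mul_zero] at hlt
      exact hlt
    have h6 : L * (n : ℤ) ^ 2 < 0 := mul_neg_of_neg_of_pos hL0 (by positivity)
    rw [hL] at h6
    linarith
  · by_contra hlt
    rw [not_le] at hlt
    have hmg : |m * g| ≤ ((κ : ℤ) ^ 2 * s) * ((κ : ℤ) ^ 2 * s) := by
      rw [abs_mul]
      push_cast at hm hg
      exact mul_le_mul hm hg (abs_nonneg _) (by positivity)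
    have h3 := (abs_le.mp hmg).2
    have hkk : (k : ℤ) ^ 2 ≤ 64 * (κ : ℤ) ^ 2 := by
      have : (k : ℤ) ≤ 8 * κ := by exact_mod_cast hk2
      have h0 : (0 : ℤ) ≤ k := by positivity
      nlinarith
    have hnn : 16 * (κ : ℤ) ^ 2 < (n : ℤ) ^ 2 := by
      have : 4 * (κ : ℤ) < n := by exact_mod_cast hn1
      have h0 : (0 : ℤ) ≤ κ := by positivity
      nlinarith
    have h4 : Z * (k : ℤ) ^ 2 ≤ 128 * (κ : ℤ) ^ 2 * s ^ 2 * (64 * (κ : ℤ) ^ 2) :=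
      mul_le_mul hZ2 hkk (by positivity) (by positivity)
    have h5 : 513 * (κ : ℤ) ^ 2 * s ^ 2 * (16 * (κ : ℤ) ^ 2) < L * (n : ℤ) ^ 2 := by
      refine mul_lt_mul_of_lt_of_le_of_nonneg_of_pos hlt hnn.le (by positivity) ?_
      exact lt_of_le_of_lt (by positivity) hnn
    rw [hL] at h5
    have e1 : 128 * (κ : ℤ) ^ 2 * s ^ 2 * (64 * (κ : ℤ) ^ 2) = 8192 * ((κ : ℤ) ^ 4 * s ^ 2) := by
      ring
    have e2 : ((κ : ℤ) ^ 2 * s) * ((κ : ℤ) ^ 2 * s) = (κ : ℤ) ^ 4 * s ^ 2 := by ring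
    have e3 : 513 * (κ : ℤ) ^ 2 * s ^ 2 * (16 * (κ : ℤ) ^ 2) = 8208 * ((κ : ℤ) ^ 4 * s ^ 2) := by
      ring
    have hY : (0 : ℤ) ≤ (κ : ℤ) ^ 4 * s ^ 2 := by positivity
    rw [e1] at h4
    rw [e2] at h3
    rw [e3] at h5
    linarith

open Classical in
/-- the case `q ∣ m` -/
theorem BQ_caseA {κ s P q : ℕ} (hq : q.Prime) {r1 : ℤ} (hr1 : (P : ℤ) ∣ q * r1 - 1)
    (hc : IsCoprime (P : ℤ) (q : ℤ)) :
    ((TT κ s P).filter (fun t => Bad t q ∧ (q : ℤ) ∣ t.2.1)).card ≤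
      ∑ p ∈ PP κ, (fib q P (κ ^ 2 * s / q) (κ ^ 2 * s) r1 1
        ((64 * κ ^ 2 * s ^ 2 / q : ℕ) : ℤ) (64 * κ ^ 2 * s ^ 2 / q + 1) p.1 p.2).card := by
  have hq0 : (q : ℤ) ≠ 0 := by exact_mod_cast hq.ne_zero
  rw [← card_sigma]
  refine card_le_card_of_injOn
    (fun t : Tpl => (⟨t.1, (t.2.1 / q, t.2.2.1, t.2.2.2 / q)⟩ : Σ _ : ℕ × ℕ, ℤ × ℤ × ℤ)) ?_ ?_
  · rintro ⟨⟨n, k⟩, ⟨m, g, Z⟩⟩ ht
    rw [mem_coe, mem_filter] at ht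
    obtain ⟨ht, ⟨-, hqn, hqk, hqZ, -⟩, hqm⟩ := ht
    simp only at hqn hqk hqZ hqm
    obtain ⟨hp, ⟨hm, hm1⟩, ⟨hg, hg1⟩, hZ1, hZ2, h1, h2⟩ := BQ_facts ht
    obtain ⟨hn1, hn2, hk1, hk2, hn, hk, hnk⟩ := BQ_PP hp
    simp only at hn1 hn2 hk1 hk2 hn hk hnk
    obtain ⟨m', rfl⟩ := hqm
    obtain ⟨Z', rfl⟩ := hqZ
    simp only [mem_coe, mem_sigma]
    refine ⟨hp, ?_⟩
    rw [Int.mul_ediv_cancel_left _ hq0, Int.mul_ediv_cancel_left _ hq0]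
    unfold fib
    rw [mem_filter, mem_product, mem_product]
    simp only
    refine ⟨⟨BQ_cls_div hq.one_lt.le hr1 hc hm hm1, ?_, ?_⟩, ?_, ?_⟩
    · unfold cls
      rw [mem_filter, mem_Icc, ← abs_le]
      exact ⟨hg, hg1⟩
    · refine BQ_window (W := 128 * κ ^ 2 * s ^ 2) hq.one_lt.le ?_ ?_ (by ring)
      · push_cast
        linarith
      · push_cast
        linarith
    · have e : (q : ℤ) * Z' * (k : ℤ) ^ 4 + q * m' * g * (k : ℤ) ^ 2 - g ^ 2 * (n : ℤ) ^ 2 =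
          (q : ℤ) * Z' * (k : ℤ) ^ 4 + (q : ℤ) * m' * g * (k : ℤ) ^ 2 -
            g ^ 2 * (n : ℤ) ^ 2 := rfl
      exact h1
    · have h3 : (k : ℤ) ∣ q * (q * m' ^ 2 - Z' * (n : ℤ) ^ 2) := by
        have e : (q : ℤ) * (q * m' ^ 2 - Z' * (n : ℤ) ^ 2) =
            ((q : ℤ) * m') ^ 2 - (q : ℤ) * Z' * (n : ℤ) ^ 2 := by ring
        rw [e]
        exact h2
      have hcop : IsCoprime (k : ℤ) (q : ℤ) :=
        Nat.isCoprime_iff_coprime.mpr ((Nat.coprime_primes hk hq).mpr (Ne.symm hqk))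
      exact hcop.dvd_of_dvd_mul_left h3
  · rintro ⟨⟨n, k⟩, ⟨m, g, Z⟩⟩ ht ⟨⟨n', k'⟩, ⟨m', g', Z'⟩⟩ ht' h
    rw [mem_coe, mem_filter] at ht ht'
    obtain ⟨-, ⟨-, -, -, hqZ, -⟩, hqm⟩ := ht
    obtain ⟨-, ⟨-, -, -, hqZ', -⟩, hqm'⟩ := ht'
    simp only at hqZ hqm hqZ' hqm'
    simp only [Sigma.mk.injEq, Prod.mk.injEq, heq_eq_eq] at h
    obtain ⟨⟨rfl, rfl⟩, h1, rfl, h2⟩ := h
    have e1 : m = m' := by
      rw [← Int.ediv_mul_cancel hqm, ← Int.ediv_mul_cancel hqm', h1]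
    have e2 : Z = Z' := by
      rw [← Int.ediv_mul_cancel hqZ, ← Int.ediv_mul_cancel hqZ', h2]
    rw [e1, e2]

open Classical in
/-- the case `q ∣ g` -/
theorem BQ_caseB {κ s P q : ℕ} (hq : q.Prime) {r1 : ℤ} (hr1 : (P : ℤ) ∣ q * r1 - 1)
    (hc : IsCoprime (P : ℤ) (q : ℤ)) :
    ((TT κ s P).filter (fun t => Bad t q ∧ (q : ℤ) ∣ t.2.2.1)).card ≤
      ∑ p ∈ PP κ, (fib q P (κ ^ 2 * s / q) (κ ^ 2 * s) r1 (-1)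
        ((15 * κ ^ 2 * s ^ 2 / q : ℕ) : ℤ) (498 * κ ^ 2 * s ^ 2 / q + 1) p.1 p.2).card := by
  have hq0 : (q : ℤ) ≠ 0 := by exact_mod_cast hq.ne_zero
  have hqL : ∀ {n k : ℕ} {m g Z : ℤ}, ((n, k), (m, g, Z)) ∈ TT κ s P → q ≠ n →
      (q : ℤ) ∣ Z → (q : ℤ) ∣ g → (q : ℤ) ∣ lam ((n, k), (m, g, Z)) := by
    intro n k m g Z ht hqn hqZ hqg
    have hL := (BQ_lam ht).1
    obtain ⟨hp, -⟩ := BQ_facts ht
    obtain ⟨-, -, -, -, hn, -, -⟩ := BQ_PP hp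
    have h1 : (q : ℤ) ∣ lam ((n, k), (m, g, Z)) * (n : ℤ) ^ 2 := by
      rw [hL]
      exact dvd_add (hqg.mul_left _) (hqZ.mul_right _)
    have hcop : IsCoprime (q : ℤ) ((n : ℤ) ^ 2) :=
      (Nat.isCoprime_iff_coprime.mpr ((Nat.coprime_primes hq hn).mpr hqn)).pow_right
    exact hcop.dvd_of_dvd_mul_right h1
  rw [← card_sigma]
  refine card_le_card_of_injOn
    (fun t : Tpl => (⟨(t.1.2, t.1.1), (t.2.2.1 / q, -t.2.1, lam t / q)⟩ :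
      Σ _ : ℕ × ℕ, ℤ × ℤ × ℤ)) ?_ ?_
  · rintro ⟨⟨n, k⟩, ⟨m, g, Z⟩⟩ ht
    rw [mem_coe, mem_filter] at ht
    obtain ⟨ht, ⟨-, hqn, hqk, hqZ, -⟩, hqg⟩ := ht
    simp only at hqn hqk hqZ hqg
    obtain ⟨hp, ⟨hm, hm1⟩, ⟨hg, hg1⟩, hZ1, hZ2, h1, h2⟩ := BQ_facts ht
    obtain ⟨hn1, hn2, hk1, hk2, hn, hk, hnk⟩ := BQ_PP hp
    simp only at hn1 hn2 hk1 hk2 hn hk hnk
    obtain ⟨hL, hL2, hL3, hL4, hL5⟩ := BQ_lam ht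
    obtain ⟨L', hL'⟩ := hqL ht hqn hqZ hqg
    obtain ⟨g', rfl⟩ := hqg
    simp only [mem_coe, mem_sigma]
    refine ⟨BQ_PP_swap hp, ?_⟩
    rw [hL'] at hL hL2 hL3 hL4 hL5 ⊢
    rw [Int.mul_ediv_cancel_left _ hq0, Int.mul_ediv_cancel_left _ hq0]
    unfold fib
    rw [mem_filter, mem_product, mem_product]
    simp only
    refine ⟨⟨BQ_cls_div hq.one_lt.le hr1 hc hg hg1, ?_, ?_⟩, ?_, ?_⟩
    · unfold cls
      rw [mem_filter, mem_Icc, ← abs_le, abs_neg]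
      refine ⟨hm, ?_⟩
      have e : -m - -1 = -(m - 1) := by ring
      rw [e, dvd_neg]
      exact hm1
    · refine BQ_window (W := 513 * κ ^ 2 * s ^ 2) hq.one_lt.le ?_ ?_ (by ring)
      · push_cast
        linarith
      · push_cast
        linarith
    · have e : (q : ℤ) * L' * (n : ℤ) ^ 4 + q * g' * (-m) * (n : ℤ) ^ 2 -
          (-m) ^ 2 * (k : ℤ) ^ 2 =
          (q : ℤ) * L' * (n : ℤ) ^ 4 - (q : ℤ) * g' * m * (n : ℤ) ^ 2 -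
            m ^ 2 * (k : ℤ) ^ 2 := by ring
      rw [e]
      exact hL3
    · have h3 : (n : ℤ) ∣ q * (q * g' ^ 2 - L' * (k : ℤ) ^ 2) := by
        have e : (q : ℤ) * (q * g' ^ 2 - L' * (k : ℤ) ^ 2) =
            ((q : ℤ) * g') ^ 2 - (q : ℤ) * L' * (k : ℤ) ^ 2 := by ring
        rw [e]
        exact hL2
      have hcop : IsCoprime (n : ℤ) (q : ℤ) :=
        Nat.isCoprime_iff_coprime.mpr ((Nat.coprime_primes hn hq).mpr (Ne.symm hqn))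
      exact hcop.dvd_of_dvd_mul_left h3
  · rintro ⟨⟨n, k⟩, ⟨m, g, Z⟩⟩ ht ⟨⟨n', k'⟩, ⟨m', g', Z'⟩⟩ ht' h
    rw [mem_coe, mem_filter] at ht ht'
    obtain ⟨ht, ⟨-, hqn, -, hqZ, -⟩, hqg⟩ := ht
    obtain ⟨ht', ⟨-, hqn', -, hqZ', -⟩, hqg'⟩ := ht'
    simp only at hqZ hqg hqZ' hqg' hqn hqn'
    simp only [Sigma.mk.injEq, Prod.mk.injEq, heq_eq_eq, neg_inj] at h
    obtain ⟨⟨rfl, rfl⟩, h1, rfl, h2⟩ := h
    have e1 : g = g' := by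
      rw [← Int.ediv_mul_cancel hqg, ← Int.ediv_mul_cancel hqg', h1]
    subst e1
    have e2 : lam ((n, k), (m, g, Z)) = lam ((n, k), (m, g, Z')) := by
      rw [← Int.ediv_mul_cancel (hqL ht hqn hqZ hqg),
        ← Int.ediv_mul_cancel (hqL ht' hqn' hqZ' hqg'), h2]
    have hL := (BQ_lam ht).1
    have hL' := (BQ_lam ht').1
    rw [e2, hL'] at hL
    obtain ⟨hp, -⟩ := BQ_facts ht
    obtain ⟨-, -, -, -, -, hk, -⟩ := BQ_PP hp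
    have hk0 : (k : ℤ) ^ 2 ≠ 0 := pow_ne_zero 2 (by exact_mod_cast hk.ne_zero)
    have e3 : Z = Z' := mul_right_cancel₀ hk0 (by linarith)
    rw [e3]

open Classical in
/-- BQ, from the statement of UP -/
theorem bad_q_of (P : ℕ) (hP : 1 ≤ P) (ε : ℝ)
    (hUP : ∃ C : ℝ, 1 ≤ C ∧
      ∀ (κ s q V : ℕ) (r r' c : ℤ), 1 ≤ s → 10 * s ^ 2 ≤ κ → P ≤ κ → 1 ≤ q → q ≤ κ →
      V * q ≤ 512 * κ ^ 2 * s ^ 2 →
      ∑ p ∈ PP κ, ((fib q P (κ ^ 2 * s / q) (κ ^ 2 * s) r r' c V p.1 p.2).card : ℝ) ≤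
        ((PP κ).card : ℝ) * (512 * (κ : ℝ) ^ 2 * (s : ℝ) ^ 4 / ((q : ℝ) ^ 2 * (P : ℝ) ^ 2)) +
        C * (κ : ℝ) ^ ε * ((κ : ℝ) ^ 4 * s * (1 + √q / s))) :
    ∃ C : ℝ, 1 ≤ C ∧
    ∀ κ s q : ℕ, 1 ≤ s → 10 * s ^ 2 ≤ κ → P ≤ κ → q.Prime → q ≤ κ → ¬ q ∣ P →
    (((TT κ s P).filter (fun t => Bad t q)).card : ℝ) ≤
      ((PP κ).card : ℝ) * (1024 * (κ : ℝ) ^ 2 * (s : ℝ) ^ 4 / ((q : ℝ) ^ 2 * (P : ℝ) ^ 2)) +
      C * (κ : ℝ) ^ ε * ((κ : ℝ) ^ 4 * s * (1 + √q / s)) := by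
  obtain ⟨C, hC, hup⟩ := hUP
  refine ⟨2 * C, by linarith, ?_⟩
  intro κ s q hs hsκ hPκ hq hqκ hqP
  have hcopN : Nat.Coprime P q := ((Nat.Prime.coprime_iff_not_dvd hq).mpr hqP).symm
  have hc : IsCoprime (P : ℤ) (q : ℤ) := Nat.isCoprime_iff_coprime.mpr hcopN
  obtain ⟨u, v, huv⟩ := hc
  have hr1 : (P : ℤ) ∣ q * v - 1 := ⟨-u, by linear_combination huv⟩
  have hA := BQ_caseA (κ := κ) (s := s) hq hr1 ⟨u, v, huv⟩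
  have hB := BQ_caseB (κ := κ) (s := s) hq hr1 ⟨u, v, huv⟩
  have hκ1 : 1 ≤ κ := hq.one_lt.le.trans hqκ
  have hκκ : κ ≤ κ ^ 2 * s ^ 2 := by
    have h1 : 1 ≤ κ * s ^ 2 := Nat.mul_pos hκ1 (pow_pos hs 2)
    calc κ = κ * 1 := (mul_one _).symm
      _ ≤ κ * (κ * s ^ 2) := Nat.mul_le_mul_left _ h1
      _ = κ ^ 2 * s ^ 2 := by ring
  have hV1 : (64 * κ ^ 2 * s ^ 2 / q + 1) * q ≤ 512 * κ ^ 2 * s ^ 2 := by
    have h1 := Nat.div_mul_le_self (64 * κ ^ 2 * s ^ 2) q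
    have e1 : 64 * κ ^ 2 * s ^ 2 = 64 * (κ ^ 2 * s ^ 2) := by ring
    have e2 : 512 * κ ^ 2 * s ^ 2 = 512 * (κ ^ 2 * s ^ 2) := by ring
    rw [e1] at h1 ⊢
    rw [e2, add_mul, one_mul]
    omega
  have hV2 : (498 * κ ^ 2 * s ^ 2 / q + 1) * q ≤ 512 * κ ^ 2 * s ^ 2 := by
    have h1 := Nat.div_mul_le_self (498 * κ ^ 2 * s ^ 2) q
    have e1 : 498 * κ ^ 2 * s ^ 2 = 498 * (κ ^ 2 * s ^ 2) := by ring
    have e2 : 512 * κ ^ 2 * s ^ 2 = 512 * (κ ^ 2 * s ^ 2) := by ring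
    rw [e1] at h1 ⊢
    rw [e2, add_mul, one_mul]
    omega
  have hA' := hup κ s q _ v 1 ((64 * κ ^ 2 * s ^ 2 / q : ℕ) : ℤ) hs hsκ hPκ hq.one_lt.le hqκ hV1
  have hB' := hup κ s q _ v (-1) ((15 * κ ^ 2 * s ^ 2 / q : ℕ) : ℤ) hs hsκ hPκ
    hq.one_lt.le hqκ hV2
  have hsub : (TT κ s P).filter (fun t => Bad t q) ⊆
      (TT κ s P).filter (fun t => Bad t q ∧ (q : ℤ) ∣ t.2.1) ∪
        (TT κ s P).filter (fun t => Bad t q ∧ (q : ℤ) ∣ t.2.2.1) := by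
    intro t ht
    rw [mem_filter] at ht
    rw [mem_union, mem_filter, mem_filter]
    rcases (Nat.prime_iff_prime_int.mp hq).dvd_or_dvd ht.2.2.2.2.2 with h | h
    · exact Or.inl ⟨ht.1, ht.2, h⟩
    · exact Or.inr ⟨ht.1, ht.2, h⟩
  have hcard := (card_le_card hsub).trans (card_union_le _ _)
  have hcard' := hcard.trans (add_le_add hA hB)
  have hcast : (((TT κ s P).filter (fun t => Bad t q)).card : ℝ) ≤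
      ∑ p ∈ PP κ, ((fib q P (κ ^ 2 * s / q) (κ ^ 2 * s) v 1
        ((64 * κ ^ 2 * s ^ 2 / q : ℕ) : ℤ) (64 * κ ^ 2 * s ^ 2 / q + 1) p.1 p.2).card : ℝ) +
      ∑ p ∈ PP κ, ((fib q P (κ ^ 2 * s / q) (κ ^ 2 * s) v (-1)
        ((15 * κ ^ 2 * s ^ 2 / q : ℕ) : ℤ) (498 * κ ^ 2 * s ^ 2 / q + 1) p.1 p.2).card : ℝ) := by
    exact_mod_cast hcard'
  refine (hcast.trans (add_le_add hA' hB')).trans (le_of_eq ?_)
  ring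

end Pool.Agent.helper28.LT
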