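import Pool.Agent.helper18.LT.BQ
import Pool.Agent.helper14.LT.UPF

set_option autoImplicit false

namespace Pool.Agent.helper28.LT

open Finset NumberField Pool.Agent.helper3.FT Pool.Agent.helper47.RA

open Classical in
/-- BQ (from UP) -/
theorem bad_q (P : ℕ) (hP : 1 ≤ P) (ε : ℝ) (hε : 0 < ε) : ∃ C : ℝ, 1 ≤ C ∧
    ∀ κ s q : ℕ, 1 ≤ s → 10 * s ^ 2 ≤ κ → P ≤ κ → q.Prime → q ≤ κ → ¬ q ∣ P →
    (((TT κ s P).filter (fun t => Bad t q)).card : ℝ) ≤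
      ((PP κ).card : ℝ) * (1024 * (κ : ℝ) ^ 2 * (s : ℝ) ^ 4 / ((q : ℝ) ^ 2 * (P : ℝ) ^ 2)) +
      C * (κ : ℝ) ^ ε * ((κ : ℝ) ^ 4 * s * (1 + √q / s)) :=
  bad_q_of P hP ε (up_q P hP ε hε)

end Pool.Agent.helper28.LT
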